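import Mathlib
import Pool.Agent.MP_a8995d_an.BI.Basis

open Filter Topology

/-- Let `T` be a bilateral weighted backward shift along an orthonormal basis indexed by `ℤ`, whose
products of `n` weights decay like `exp (-a n ^ (1 + p))` to the left and like
`exp (-b n ^ (1 + p))` to the right. Off the boundary case, `1 + T` is recurrent of order `N`
exactly when `N ^ p b < a`, and then its powers up to the `N`-th are disjointly mixing. -/
theorem Pool.Agent.Results.MP_a8995d_an.BilateralThreshold.result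
    {E : Type} [NormedAddCommGroup E] [InnerProductSpace ℂ E] (e : HilbertBasis ℤ ℂ E)
    (w : ℤ → ℝ) (hw : ∀ n, 0 < w n)
    (T : E →L[ℂ] E) (hT : ∀ n, T (e n) = (w n : ℂ) • e (n - 1))
    (p a b : ℝ) (hp : 0 < p)
    (ha : Tendsto (fun n : ℕ => Real.log (∏ j ∈ Finset.range n, w (-j)) / (n : ℝ) ^ (1 + p))
      atTop (𝓝 (-a)))
    (hb : Tendsto (fun n : ℕ => Real.log (∏ j ∈ Finset.range n, w (j + 1)) / (n : ℝ) ^ (1 + p))
      atTop (𝓝 (-b)))
    (N : ℕ) (hN : 1 ≤ N) (hne : a ≠ (N : ℝ) ^ p * b) :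
    List.TFAE [(N : ℝ) ^ p * b < a,
      ∀ U : Fin (N + 1) → Set E, (∀ i, IsOpen (U i) ∧ (U i).Nonempty) →
        ∀ᶠ k : ℕ in atTop, ∃ x, ∀ i : Fin (N + 1), ((1 + T) ^ (i.val * k)) x ∈ U i,
      ∀ U : Set E, IsOpen U → U.Nonempty →
        ∃ k : ℕ, 1 ≤ k ∧ ∃ x, ∀ i ≤ N, ((1 + T) ^ (i * k)) x ∈ U] :=
  Pool.Agent.MP_a8995d_an.BI.mainB e w hw T hT p a b hp ha hb N hN hne
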