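import Mathlib
import Pool.Agent.MP_a8995d_an.ZD.Main

open Polynomial

/-- Polynomials `f l` with unimodular constant term in a weighted backward shift `T` generate an
action of `ℕ ^ d` that is topologically mixing of all orders, uniformly in the times, exactly when
the `f l` are multiplicatively independent modulo constants. -/
theorem Pool.Agent.Results.MP_a8995d_an.CommutingAllOrders.result
    {E : Type} [NormedAddCommGroup E] [NormedSpace ℂ E] [Nontrivial E] (e : ℕ → E)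
    (he : Dense (Submodule.span ℂ (Set.range e) : Set E)) (w : ℕ → ℝ) (hw : ∀ n, 1 ≤ n → 0 < w n)
    (T : E →L[ℂ] E) (h0 : T (e 0) = 0) (hs : ∀ n, T (e (n + 1)) = (w (n + 1) : ℂ) • e n)
    (d : ℕ) (f : Fin d → ℂ[X]) (hf : ∀ l, ‖(f l).eval 0‖ = 1) :
    (∀ (a b : Fin d → ℕ) (c : ℂ), ∏ l, f l ^ a l = C c * ∏ l, f l ^ b l → a = b) ↔
      ∀ (N : ℕ) (U : Fin N → Set E), (∀ i, IsOpen (U i) ∧ (U i).Nonempty) →
        ∃ R : ℕ, ∀ n : Fin N → Fin d → ℕ,
          (∀ i j, i ≠ j → ∃ l, n i l + R ≤ n j l ∨ n j l + R ≤ n i l) →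
          ∃ x, ∀ i, aeval T (∏ l, f l ^ n i l) x ∈ U i :=
  ⟨Pool.Agent.MP_a8995d_an.ZD.forward e he w hw T h0 hs d f hf,
    Pool.Agent.MP_a8995d_an.ZD.backward T d f hf⟩
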