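import Mathlib
import Pool.Agent.MP_a8995d_an.K9.Per

open Pool.Agent.MP_a8995d_an

/-- For `lam ≠ 0`, recurrence with positive upper Banach density, frequent hypercyclicity and
density of the periodic points of `lam I + T` are all equivalent to a growth condition on the
products of the weights of the backward shift `T`. -/
theorem Pool.Agent.Results.MP_a8995d_an.DensityIff.result
    {X : Type} [NormedAddCommGroup X] [NormedSpace ℂ X] [CompleteSpace X] (e : ℕ → X)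
    (φ : ℕ → X →L[ℂ] ℂ) (hφ : ∀ i j, φ i (e j) = if i = j then 1 else 0)
    (he : Dense (Submodule.span ℂ (Set.range e) : Set X)) (C : ℝ)
    (hC : ∀ k, ‖e k‖ ≤ C ∧ ‖φ k‖ ≤ C) (w : ℕ → ℝ) (hw : ∀ n, 1 ≤ n → 0 < w n) (T : X →L[ℂ] X)
    (h0 : T (e 0) = 0) (hs : ∀ n, T (e (n + 1)) = (w (n + 1) : ℂ) • e n)
    (lam : ℂ) (hl : lam ≠ 0) :
    List.TFAE [DensityRecurrent (lam • 1 + T), FreqHypercyclic (lam • 1 + T),
      Dense {x | ∃ p : ℕ, 0 < p ∧ ((lam • 1 + T : X →L[ℂ] X) ^ p) x = x},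
      ∃ r : ℝ, |‖lam‖ - 1| < r ∧
        ∀ᶠ k in Filter.atTop, r ^ k ≤ ∏ i ∈ Finset.range k, w (i + 1)] :=
  K9.classification e φ hφ he C hC w hw T ⟨h0, hs⟩ lam hl
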